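import Pool.Agent.MP_fcd29e_an.H11.CS

/-!
Charts of the flat bundle at points of the curve where no coordinate vanishes.
-/

set_option autoImplicit false

open Complex Set Filter Topology Metric Pool.Agent.MP_fcd29e_an.H81 Pool.Agent.MP_fcd29e_an.H11
open scoped ContDiff ComplexConjugate

namespace Pool.Agent.MP_fcd29e_an.H56

noncomputable section

/-- A weight composed with a holomorphic coordinate that has non-zero derivative. -/
theorem cx1_comp (hLV : SLV) {X : Type} [NormedAddCommGroup X] [NormedSpace ℝ X]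
    (f : ℂ × X → ℝ) (u : ℂ → ℂ) (z : ℂ) (x : X) (hu : AnalyticAt ℂ u z) (hd : deriv u z ≠ 0)
    (hf : ContDiffAt ℝ ∞ f (u z, x)) (hl : lap (fun y => f (y, x)) (u z) < 0) :
    ContDiffAt ℝ ∞ (fun q : ℂ × X => f (u q.1, q.2)) (z, x) ∧
      lap (fun y => f (u y, x)) z < 0 := by
  have hu' : ContDiffAt ℝ ∞ u z := (hu.contDiffAt (n := ∞)).restrict_scalars ℝ
  refine ⟨?_, ?_⟩
  · have h1 : ContDiffAt ℝ ∞ (fun q : ℂ × X => (u q.1, q.2)) (z, x) :=
      (ContDiffAt.comp (z, x) (g := u) (f := fun q : ℂ × X => q.1) hu' contDiffAt_fst).prodMk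
        contDiffAt_snd
    exact ContDiffAt.comp (z, x) (g := f) (f := fun q : ℂ × X => (u q.1, q.2)) hf h1
  · have h2 : ContDiffAt ℝ ∞ (fun y : ℂ => f (y, x)) (u z) :=
      ContDiffAt.comp (u z) (g := f) (f := fun y : ℂ => (y, x)) hf
        (contDiffAt_id.prodMk contDiffAt_const)
    have h3 := hLV.one (fun y : ℂ => f (y, x)) u z hu (h2.of_le (by norm_cast))
    rw [h3]
    exact mul_neg_of_pos_of_neg (pow_pos (norm_pos_iff.2 hd) 2) hl

theorem cx1_rot {ι : Type} [Fintype ι] (c S : ℝ) (w : ι → ℂ) {u : ℂ → ℂ} {z : ℂ}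
    (hu : AnalyticAt ℂ u z) (h0 : u z ≠ 0) : AnalyticAt ℂ (fun y => rot c S w (u y)) z := by
  unfold rot
  exact (analyticAt_const.add (hu.smul analyticAt_const)).add
    ((hu.inv h0).smul analyticAt_const)

theorem cx1_dg {ι : Type} [Fintype ι] {u : ℂ → ℂ} {z : ℂ}
    (hu : AnalyticAt ℂ u z) (h0 : u z ≠ 0) : AnalyticAt ℂ (fun y => (dg (u y) : EV ι)) z := by
  unfold dg
  exact (analyticAt_const.add (hu.smul analyticAt_const)).add
    ((hu.inv h0).smul analyticAt_const)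

/-- The hub weight as a function of the base point and the fibre point. -/
theorem cx1_hub {r : ℕ} (fh : ℂ × (Fin r → ℂ) → ℝ) (Y : ℂ → EV (Fin r)) (t : ℂ) (x : V (Fin r))
    (hY : AnalyticAt ℂ Y t) (hf : ContDiffAt ℝ ∞ fh (t, (Y t x).2.2)) :
    ContDiffAt ℝ ∞ (fun q : ℂ × V (Fin r) => fh (q.1, (Y q.1 q.2).2.2)) (t, x) := by
  have h1 : ContDiffAt ℂ ∞ (fun q : ℂ × V (Fin r) => Y q.1 q.2) (t, x) :=
    (ContDiffAt.comp (t, x) (g := Y) (f := fun q : ℂ × V (Fin r) => q.1)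
      (hY.contDiffAt (n := ∞)) contDiffAt_fst).clm_apply contDiffAt_snd
  have h2 : ContDiffAt ℝ ∞ (fun q : ℂ × V (Fin r) => (q.1, (Y q.1 q.2).2.2)) (t, x) :=
    contDiffAt_fst.prodMk (h1.restrict_scalars ℝ).snd.snd
  exact ContDiffAt.comp (t, x) (g := fh)
    (f := fun q : ℂ × V (Fin r) => (q.1, (Y q.1 q.2).2.2)) hf h2

theorem sx1 (hLV : SLV) (hGR : SGR) (hXU : SXU) (hX0 : SX0) : SX1 := by
  intro r m n _ C c S om F Fi Fr fc fi fh hn hR hF hP s z₀ hs hX hI h0
  obtain ⟨hd1, hd2, hA⟩ := hX0 r m n hn s z₀ hs hX hI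
  have hO : ∀ j : Fin m, Orth (F (tp j)) := fun j => (hF.an j (tp j) (by simp)).2
  have hA' := hA c S om F hR.ax hO h0
  have hso : ∀ o, AnalyticAt ℂ (fun y => s y o) z₀ := fun o => analyticAt_pi_iff.1 hs o
  have hne : ∀ᶠ z in 𝓝 z₀, ∀ o, s z o ≠ 0 :=
    eventually_all.2 fun o => (hso o).continuousAt.eventually_ne (h0 o)
  have hu : ∀ o o', AnalyticAt ℂ (fun y => s y o / s y o') z₀ := fun o o' =>
    (hso o).div (hso o') (h0 o')
  have ht : AnalyticAt ℂ (fun y => (s y (some 0) / s y none) ^ n) z₀ := (hu _ _).pow n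
  have hcst : AnalyticAt ℂ (fun y => (∏ i, s y (some i)) * s y none ^ (4 * m)) z₀ :=
    (Finset.analyticAt_fun_prod _ fun i _ => hso (some i)).mul ((hso none).pow _)
  have hX0' : s z₀ ∈ XX m n := hX.self_of_nhds
  have hrel : ∀ j, tp j + (s z₀ (some j) / s z₀ none) ^ n = (s z₀ (some 0) / s z₀ none) ^ n :=
    (hXU r m n hn (s z₀) hX0').2.2.1 (h0 none)
  have hone : Op1 (1 : EV (Fin r)) := (hGR.op (Fin r)).1
  by_cases h1 : ∃ j, ‖(s z₀ (some j) / s z₀ none) ^ n‖ < 1 / 4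
  · obtain ⟨j, hj⟩ := h1
    have hFa : AnalyticAt ℂ F ((s z₀ (some 0) / s z₀ none) ^ n) :=
      (hF.an j _ (by rw [← hrel j, add_sub_cancel_left]; linarith)).1
    have hFt : AnalyticAt ℂ (fun y => F ((s y (some 0) / s y none) ^ n)) z₀ :=
      AnalyticAt.comp (g := F) (f := fun y => (s y (some 0) / s y none) ^ n) hFa ht
    obtain ⟨e, w, he, hw, hev⟩ := hA' (fun y => ((∏ i, s y (some i)) * s y none ^ (4 * m)) •
      (F ((s y (some 0) / s y none) ^ n) * rot c S (om j) (s y (some j) / s y none)))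
      (hcst.smul (hFt.mul (cx1_rot c S (om j) (hu _ _) (div_ne_zero (h0 _) (h0 _)))))
    refine ⟨e, w, fun q => fc j (s q.1 (some j) / s q.1 none, q.2), he, hw, ?_⟩
    have hsm : ∀ᶠ z in 𝓝 z₀, ‖(s z (some j) / s z none) ^ n‖ < 1 / 4 :=
      ((hu (some j) none).pow n).continuousAt.norm.eventually_lt continuousAt_const hj
    filter_upwards [hev, hne, hsm, hd1 j (h0 none) (fun i _ => h0 _),
      (hu (some j) none).eventually_analyticAt] with z hz hz0 hzs hzd hza
    refine ⟨⟨fun x => (hz x).2, Or.inl ⟨j, 1, hone, hz0 none, hzs, fun _ x => ?_,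
      fun h => absurd h (hz0 _), fun x _ => rfl⟩⟩, fun x hx => ?_⟩
    · rw [(hz x).1]; rfl
    · obtain ⟨a1, -, a3, -⟩ := hP.cell j _ hzs x hx
      exact cx1_comp hLV (fc j) (fun y => s y (some j) / s y none) z x hza hzd a1 a3
  · by_cases h2 : (m : ℝ) + 2 < ‖(s z₀ (some 0) / s z₀ none) ^ n‖
    · have hFa : AnalyticAt ℂ F ((s z₀ (some 0) / s z₀ none) ^ n) :=
        (hF.ani _ (by linarith)).1
      have hFt : AnalyticAt ℂ (fun y => F ((s y (some 0) / s y none) ^ n)) z₀ :=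
        AnalyticAt.comp (g := F) (f := fun y => (s y (some 0) / s y none) ^ n) hFa ht
      obtain ⟨e, w, he, hw, hev⟩ := hA' (fun y => ((∏ i, s y (some i)) * s y none ^ (4 * m)) •
        (F ((s y (some 0) / s y none) ^ n) * dg ((s y (some 0) / s y none) ^ (4 * m))))
        (hcst.smul (hFt.mul (cx1_dg ((hu _ _).pow _)
          (pow_ne_zero _ (div_ne_zero (h0 _) (h0 _))))))
      refine ⟨e, w, fun q => fi (s q.1 none / s q.1 (some 0), q.2), he, hw, ?_⟩
      have hlt : ((m : ℝ) + 2) * ‖(s z₀ none / s z₀ (some 0)) ^ n‖ < 1 := by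
        have hpos : 0 < ‖(s z₀ (some 0) / s z₀ none) ^ n‖ :=
          lt_of_le_of_lt (by positivity) h2
        rw [← inv_div, inv_pow, norm_inv, ← div_eq_mul_inv, div_lt_one hpos]
        exact h2
      have hsm : ∀ᶠ z in 𝓝 z₀, ((m : ℝ) + 2) * ‖(s z none / s z (some 0)) ^ n‖ < 1 :=
        (continuousAt_const.mul
          ((hu none (some 0)).pow n).continuousAt.norm).eventually_lt continuousAt_const hlt
      filter_upwards [hev, hne, hsm, hd2 (fun i => h0 _),
        (hu none (some 0)).eventually_analyticAt] with z hz hz0 hzs hzd hza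
      refine ⟨⟨fun x => (hz x).2, Or.inr (Or.inl ⟨1, hone, hz0 _, hzs, fun _ x => ?_,
        fun h => absurd h (hz0 _), fun x _ => rfl⟩)⟩, fun x hx => ?_⟩
      · rw [(hz x).1]; rfl
      · obtain ⟨a1, -, a3, -⟩ := hP.far _ hzs x hx
        exact cx1_comp hLV fi (fun y => s y none / s y (some 0)) z x hza hzd a1 a3
    · have hb1 : ∀ j : Fin m, 1 / 4 ≤ ‖(s z₀ (some 0) / s z₀ none) ^ n - tp j‖ := fun j => by
        rw [← hrel j, add_sub_cancel_left]
        exact not_lt.1 fun h => h1 ⟨j, h⟩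
      have hb2 : ‖(s z₀ (some 0) / s z₀ none) ^ n‖ ≤ m + 2 := not_lt.1 h2
      obtain ⟨Y, hY⟩ := hP.hub _ hb1 hb2
      have hYa : AnalyticAt ℂ Y ((s z₀ (some 0) / s z₀ none) ^ n) :=
        (hY _ (mem_ball_self (by norm_num))).1
      have hYt : AnalyticAt ℂ (fun y => Y ((s y (some 0) / s y none) ^ n)) z₀ :=
        AnalyticAt.comp (g := Y) (f := fun y => (s y (some 0) / s y none) ^ n) hYa ht
      obtain ⟨e, w, he, hw, hev⟩ := hA' (fun y => ((∏ i, s y (some i)) * s y none ^ (4 * m)) •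
        Y ((s y (some 0) / s y none) ^ n)) (hcst.smul hYt)
      refine ⟨e, w, fun q => fh ((s q.1 (some 0) / s q.1 none) ^ n,
        (Y ((s q.1 (some 0) / s q.1 none) ^ n) q.2).2.2), he, hw, ?_⟩
      have hsm : ∀ᶠ z in 𝓝 z₀, (s z (some 0) / s z none) ^ n ∈
          ball ((s z₀ (some 0) / s z₀ none) ^ n) (1 / 64) :=
        ht.continuousAt.eventually (ball_mem_nhds _ (by norm_num))
      filter_upwards [hev, hne, hsm, hd1 0 (h0 none) (fun i _ => h0 _),
        (hu (some 0) none).eventually_analyticAt] with z hz hz0 hzs hzd hza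
      obtain ⟨b1, b2, b3⟩ := hY _ hzs
      have hdist : ‖(s z (some 0) / s z none) ^ n - (s z₀ (some 0) / s z₀ none) ^ n‖ < 1 / 64 :=
        mem_ball_iff_norm.1 hzs
      refine ⟨⟨fun x => (hz x).2, Or.inr (Or.inr ⟨_, b2, hz0 _, fun j => ?_, ?_, fun x => ?_,
        fun x _ => rfl⟩)⟩, fun x hx => ?_⟩
      · have h3 := norm_sub_le_norm_sub_add_norm_sub ((s z₀ (some 0) / s z₀ none) ^ n)
          ((s z (some 0) / s z none) ^ n) (tp j)
        rw [norm_sub_rev ((s z₀ (some 0) / s z₀ none) ^ n) ((s z (some 0) / s z none) ^ n)] at h3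
        have := hb1 j
        linarith
      · have h3 := norm_sub_norm_le ((s z (some 0) / s z none) ^ n)
          ((s z₀ (some 0) / s z₀ none) ^ n)
        linarith
      · rw [(hz x).1]; rfl
      · obtain ⟨a1, a3⟩ := b3 x hx
        have hdt : deriv (fun y => (s y (some 0) / s y none) ^ n) z ≠ 0 := by
          rw [deriv_fun_pow hza.differentiableAt]
          exact mul_ne_zero (mul_ne_zero (Nat.cast_ne_zero.2 (by omega))
            (pow_ne_zero _ (div_ne_zero (hz0 _) (hz0 _)))) hzd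
        exact cx1_comp hLV (fun q : ℂ × V (Fin r) => fh (q.1, (Y q.1 q.2).2.2))
          (fun y => (s y (some 0) / s y none) ^ n) z x (hza.pow n) hdt
          (cx1_hub fh Y _ x b1 a1) a3

end

end Pool.Agent.MP_fcd29e_an.H56
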