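import Pool.Agent.MP_fcd29e_an.H81.Spec

/-!
Alternating arrays: wedge product, contraction, antisymmetrisation.
-/

set_option autoImplicit false

namespace Pool.Agent.MP_fcd29e_an.H56

open Pool.Agent.MP_fcd29e_an.H81 Equiv

variable {N q : ℕ}

/-- The sign as a complex number. -/
abbrev sg {n : ℕ} (σ : Perm (Fin n)) : ℂ := ((Perm.sign σ : ℤ) : ℂ)

theorem sg_mul {n : ℕ} (σ τ : Perm (Fin n)) : sg (σ * τ) = sg σ * sg τ := by
  simp [sg]

theorem sg_sq {n : ℕ} (σ : Perm (Fin n)) : sg σ * sg σ = 1 := by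
  rcases Int.units_eq_one_or (Perm.sign σ) with h | h <;> simp [sg, h]

theorem sg_inv {n : ℕ} (σ : Perm (Fin n)) : sg σ⁻¹ = sg σ := by
  simp [sg]

theorem sg_cyc {n : ℕ} (a : Fin n) : sg a.cycleRange = (-1) ^ (a : ℕ) := by
  simp [sg, Fin.sign_cycleRange]

theorem sg_swap {n : ℕ} {i j : Fin n} (h : i ≠ j) : sg (swap i j) = -1 := by
  simp [sg, Perm.sign_swap h]

theorem pm_sq (k : ℕ) : ((-1 : ℂ) ^ k) * (-1) ^ k = 1 := by
  rw [← mul_pow]; simp

theorem fix_zero (ρ : Perm (Fin (q + 1))) (h : ρ 0 = 0) :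
    ∃ τ : Perm (Fin q), sg ρ = sg τ ∧ ∀ i, ρ i.succ = (τ i).succ := by
  obtain ⟨⟨p, τ⟩, rfl⟩ := Perm.decomposeFin.symm.surjective ρ
  rw [Perm.decomposeFin_symm_apply_zero] at h
  subst h
  exact ⟨τ, by simp [sg], fun i => by simp⟩

theorem split_perm (σ : Perm (Fin (q + 1))) (a : Fin (q + 1)) :
    ∃ τ : Perm (Fin q), sg τ = (-1) ^ ((σ a : Fin (q + 1)) : ℕ) * sg σ * (-1) ^ (a : ℕ) ∧
      ∀ i, σ (a.succAbove i) = (σ a).succAbove (τ i) := by
  obtain ⟨τ, h1, h2⟩ := fix_zero ((σ a).cycleRange * σ * a.cycleRange⁻¹) (by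
    simp [Perm.mul_apply, Perm.inv_def])
  refine ⟨τ, ?_, fun i => ?_⟩
  · rw [← h1, sg_mul, sg_mul, sg_inv, sg_cyc, sg_cyc]
  · have h3 := h2 i
    rw [Perm.mul_apply, Perm.mul_apply, Perm.inv_def, Fin.cycleRange_symm_succ] at h3
    rw [← Fin.cycleRange_symm_succ (σ a), ← h3, symm_apply_apply]

theorem alt_zero {x : (Fin q → Fin N) → ℂ} (hx : altA x) {J : Fin q → Fin N} {i j : Fin q}
    (hij : i ≠ j) (h : J i = J j) : x J = 0 := by
  have e : J ∘ swap i j = J := by
    funext k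
    simp only [Function.comp_apply, swap_apply_def]
    split_ifs with h1 h2
    · rw [h1, h]
    · rw [h2, h]
    · rfl
  have h1 := hx J (swap i j)
  have h2 : sg (swap i j) = -1 := sg_swap hij
  rw [e] at h1
  simp only [sg] at h2
  rw [h2] at h1
  linear_combination h1 / 2

theorem alt_front {x : (Fin (q + 1) → Fin N) → ℂ} (hx : altA x) (J : Fin (q + 1) → Fin N)
    (a : Fin (q + 1)) : (-1) ^ (a : ℕ) * x (Fin.cons (J a) (a.removeNth J)) = x J := by
  rw [Fin.cons_removeNth_eq_comp_cycleRange_symm, hx]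
  have h : sg a.cycleRange⁻¹ = (-1) ^ (a : ℕ) := by rw [sg_inv, sg_cyc]
  simp only [sg, Perm.inv_def] at h
  rw [h, ← mul_assoc, pm_sq, one_mul]

theorem alt_wd (γ : Fin N → ℂ) {x : (Fin q → Fin N) → ℂ} (hx : altA x) : altA (wdA γ x) := by
  intro J σ
  unfold wdA
  rw [← Equiv.sum_comp σ (fun a => (-1 : ℂ) ^ (a : ℕ) * γ (J a) * x (a.removeNth J)),
    Finset.mul_sum]
  refine Finset.sum_congr rfl fun a _ => ?_
  obtain ⟨τ, h1, h2⟩ := split_perm σ a
  have e : a.removeNth (J ∘ σ) = (σ a).removeNth J ∘ τ := by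
    funext i
    simp only [Fin.removeNth_apply, Function.comp_apply, h2]
  rw [e, hx]
  simp only [sg] at h1
  rw [h1, Function.comp_apply]
  have h3 := pm_sq (a : ℕ)
  linear_combination ((-1 : ℂ) ^ ((σ a : Fin (q + 1)) : ℕ) * ((Perm.sign σ : ℤ) : ℂ) *
    γ (J (σ a)) * x ((σ a).removeNth J)) * h3

theorem alt_cons {x : (Fin (q + 1) → Fin N) → ℂ} (hx : altA x) (j : Fin N) :
    altA fun J : Fin q → Fin N => x (Fin.cons j J) := by
  intro J σ
  have e : (Fin.cons j (J ∘ σ) : Fin (q + 1) → Fin N) =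
      (Fin.cons j J : Fin (q + 1) → Fin N) ∘ Perm.decomposeFin.symm (0, σ) := by
    funext i
    refine Fin.cases ?_ (fun i => ?_) i <;> simp
  simp only [e, hx _ _]
  simp

theorem alt_ib (ζ : Fin N → ℂ) {x : (Fin (q + 1) → Fin N) → ℂ} (hx : altA x) :
    altA (ibA ζ x) := by
  intro J σ
  unfold ibA
  rw [Finset.mul_sum]
  refine Finset.sum_congr rfl fun l _ => ?_
  have h := alt_cons hx l J σ
  simp only at h
  rw [h]; ring

theorem hor_cons {ζ : Fin N → ℂ} {x : (Fin (q + 1) → Fin N) → ℂ} (h : horA ζ x)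
    (J : Fin q → Fin N) : ibA ζ x J = 0 := by
  unfold ibA
  rcases isEmpty_or_nonempty (Fin N) with hN | ⟨⟨l₀⟩⟩
  · simp
  · have h1 := h (Fin.cons l₀ J) 0
    simpa only [Fin.update_cons_zero] using h1

theorem hor_iff (ζ : Fin N → ℂ) {x : (Fin (q + 1) → Fin N) → ℂ} (hx : altA x) :
    horA ζ x ↔ ∀ J, ibA ζ x J = 0 := by
  refine ⟨hor_cons, fun h J a => ?_⟩
  have h1 : ∀ l, x (Function.update J a l) =
      (-1) ^ (a : ℕ) * x (Fin.cons l (a.removeNth J)) := by
    intro l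
    rw [← alt_front hx (Function.update J a l) a, Fin.removeNth_update, Function.update_self]
  have h2 := h (a.removeNth J)
  unfold ibA at h2
  calc ∑ l, ζ l * x (Function.update J a l)
      = (-1) ^ (a : ℕ) * ∑ l, ζ l * x (Fin.cons l (a.removeNth J)) := by
        rw [Finset.mul_sum]
        exact Finset.sum_congr rfl fun l _ => by rw [h1]; ring
    _ = 0 := by rw [h2, mul_zero]

theorem hor_ib (ζ : Fin N → ℂ) {x : (Fin (q + 1) → Fin N) → ℂ} (hx : altA x) :
    horA ζ (ibA ζ x) := by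
  intro J a
  unfold ibA
  have h1 : ∀ l m, x (Fin.cons m (Function.update J a l)) =
      -x (Fin.cons l (Function.update J a m)) := by
    intro l m
    have e : (Fin.cons m (Function.update J a l) : Fin (q + 1) → Fin N) =
        (Fin.cons l (Function.update J a m) : Fin (q + 1) → Fin N) ∘ swap 0 a.succ := by
      funext i
      refine Fin.cases ?_ (fun i => ?_) i
      · simp
      · by_cases h : i = a
        · subst h
          rw [Function.comp_apply, swap_apply_right, Fin.cons_succ, Fin.cons_zero,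
            Function.update_self]
        · have h2 : i.succ ≠ a.succ := fun h3 => h (Fin.succ_injective _ h3)
          rw [Function.comp_apply, swap_apply_of_ne_of_ne (Fin.succ_ne_zero i) h2, Fin.cons_succ,
            Fin.cons_succ, Function.update_of_ne h, Function.update_of_ne h]
    have h2 : sg (swap (0 : Fin (q + 1)) a.succ) = -1 := sg_swap (Fin.succ_ne_zero a).symm
    simp only [sg] at h2
    rw [e, hx, h2, neg_one_mul]
  have h3 : ∑ l, ζ l * ∑ m, ζ m * x (Fin.cons m (Function.update J a l)) =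
      -∑ l, ζ l * ∑ m, ζ m * x (Fin.cons m (Function.update J a l)) := by
    simp only [Finset.mul_sum]
    conv_lhs => rw [Finset.sum_comm]
    rw [← Finset.sum_neg_distrib]
    refine Finset.sum_congr rfl fun l _ => ?_
    rw [← Finset.sum_neg_distrib]
    refine Finset.sum_congr rfl fun m _ => ?_
    rw [h1 m l]; ring
  linear_combination h3 / 2

theorem ib_wd (ζ γ : Fin N → ℂ) {x : (Fin q → Fin N) → ℂ} (h : horA ζ x) (J : Fin q → Fin N) :
    ibA ζ (wdA γ x) J = (∑ l, ζ l * γ l) * x J := by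
  unfold ibA wdA
  have h0 : ∀ a : Fin q, ∑ l, ζ l *
      x (a.succ.removeNth (Fin.cons l J : Fin (q + 1) → Fin N)) = 0 := by
    intro a
    cases q with
    | zero => exact a.elim0
    | succ q =>
      have e : ∀ l, a.succ.removeNth (Fin.cons l J : Fin (q + 1 + 1) → Fin N) =
          Fin.cons l (a.removeNth J) := fun l => Fin.cons_comp_succ_succAbove l J a
      simp only [e]
      exact hor_cons h _
  have h1 : ∀ l, ∑ a : Fin (q + 1), (-1 : ℂ) ^ (a : ℕ) *
        γ ((Fin.cons l J : Fin (q + 1) → Fin N) a) *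
        x (a.removeNth (Fin.cons l J : Fin (q + 1) → Fin N)) =
      γ l * x J + ∑ a : Fin q, (-1 : ℂ) ^ ((a : ℕ) + 1) * γ (J a) *
        x (a.succ.removeNth (Fin.cons l J : Fin (q + 1) → Fin N)) := by
    intro l
    rw [Fin.sum_univ_succ]
    have e : (0 : Fin (q + 1)).removeNth (Fin.cons l J : Fin (q + 1) → Fin N) = J := by
      funext i; simp [Fin.removeNth_apply]
    simp [e]
  simp only [h1, mul_add, Finset.sum_add_distrib, Finset.mul_sum]
  rw [Finset.sum_comm, Finset.sum_mul]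
  have h2 : ∑ a : Fin q, ∑ l, ζ l * ((-1 : ℂ) ^ ((a : ℕ) + 1) * γ (J a) *
      x (a.succ.removeNth (Fin.cons l J : Fin (q + 1) → Fin N))) = 0 := by
    refine Finset.sum_eq_zero fun a _ => ?_
    calc _ = (-1 : ℂ) ^ ((a : ℕ) + 1) * γ (J a) * ∑ l, ζ l *
          x (a.succ.removeNth (Fin.cons l J : Fin (q + 1) → Fin N)) := by
          rw [Finset.mul_sum]
          exact Finset.sum_congr rfl fun l _ => by ring
      _ = 0 := by rw [h0, mul_zero]
  rw [h2, add_zero]
  exact Finset.sum_congr rfl fun l _ => by ring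

theorem top_zero {ζ : Fin N → ℂ} {x : (Fin q → Fin N) → ℂ} (hx : altA x) (h : horA ζ x)
    (hζ : ζ ≠ 0) (hN : N ≤ q) (J : Fin q → Fin N) : x J = 0 := by
  by_cases hJ : Function.Injective J
  · have hq : q ≤ N := by simpa using Fintype.card_le_of_injective J hJ
    have hs : Function.Surjective J :=
      ((Fintype.bijective_iff_injective_and_card J).2 ⟨hJ, by simp; omega⟩).2
    obtain ⟨l₀, hl⟩ := Function.ne_iff.1 hζ
    obtain ⟨a, rfl⟩ := hs l₀
    have h1 := h J a
    rw [Finset.sum_eq_single (J a), Function.update_eq_self] at h1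
    · exact (mul_eq_zero.1 h1).resolve_left hl
    · intro l _ hne
      obtain ⟨b, rfl⟩ := hs l
      have hab : a ≠ b := fun e => hne (by rw [e])
      rw [alt_zero hx hab (by rw [Function.update_self, Function.update_of_ne hab.symm]), mul_zero]
    · simp
  · obtain ⟨i, j, h1, h2⟩ := Function.not_injective_iff.1 hJ
    exact alt_zero hx h2 h1

theorem alt_Alt (x : (Fin q → Fin N) → ℂ) : altA (AltA x) := by
  intro J σ
  unfold AltA
  rw [← Equiv.sum_comp (Equiv.mulLeft σ)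
    (fun τ : Perm (Fin q) => ((Perm.sign τ : ℤ) : ℂ) * x (J ∘ τ)), mul_left_comm]
  congr 1
  rw [Finset.mul_sum]
  refine Finset.sum_congr rfl fun τ _ => ?_
  have h1 := sg_mul σ τ
  have h2 := sg_sq σ
  simp only [sg] at h1 h2
  have e : (J ∘ σ) ∘ τ = J ∘ (σ * τ : Perm (Fin q)) := rfl
  rw [Equiv.coe_mulLeft, h1, e]
  linear_combination (-((Perm.sign τ : ℤ) : ℂ) * x (J ∘ (σ * τ : Perm (Fin q)))) * h2

theorem Alt_eq {x : (Fin q → Fin N) → ℂ} (hx : altA x) : AltA x = x := by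
  funext J
  unfold AltA
  have h1 : ∀ σ : Perm (Fin q), ((Perm.sign σ : ℤ) : ℂ) * x (J ∘ σ) = x J := by
    intro σ
    have h2 := sg_sq σ
    simp only [sg] at h2
    rw [hx, ← mul_assoc, h2, one_mul]
  have h3 : (q.factorial : ℂ) ≠ 0 := Nat.cast_ne_zero.2 q.factorial_ne_zero
  simp only [h1, Finset.sum_const, Finset.card_univ, Fintype.card_perm, Fintype.card_fin,
    nsmul_eq_mul]
  rw [← mul_assoc, inv_mul_cancel₀ h3, one_mul]

/-- The involution on pairs of removed positions. -/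
def flipE (q : ℕ) : Perm (Fin (q + 1 + 1) × Fin (q + 1)) where
  toFun p := (p.1.succAbove p.2, p.2.predAbove p.1)
  invFun p := (p.1.succAbove p.2, p.2.predAbove p.1)
  left_inv _ :=
    Prod.ext (Fin.succAbove_succAbove_predAbove _ _) (Fin.predAbove_predAbove_succAbove _ _)
  right_inv _ :=
    Prod.ext (Fin.succAbove_succAbove_predAbove _ _) (Fin.predAbove_predAbove_succAbove _ _)

theorem symm_sum (x : (Fin q → Fin N) → ℂ) (S : Fin N → Fin N → ℂ) (hS : ∀ i j, S i j = S j i)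
    (J : Fin (q + 1 + 1) → Fin N) :
    ∑ a : Fin (q + 1 + 1), ∑ b : Fin (q + 1), (-1) ^ (a : ℕ) * (-1) ^ (b : ℕ) *
      (S (J a) (a.removeNth J b) * x (b.removeNth (a.removeNth J))) = 0 := by
  rw [← Fintype.sum_prod_type']
  set F : Fin (q + 1 + 1) × Fin (q + 1) → ℂ := fun p => (-1) ^ (p.1 : ℕ) * (-1) ^ (p.2 : ℕ) *
      (S (J p.1) (p.1.removeNth J p.2) * x (p.2.removeNth (p.1.removeNth J))) with hF
  have h1 : ∀ p, F (flipE q p) = -F p := by
    rintro ⟨a, b⟩
    have e1 := Fin.neg_one_pow_succAbove_add_predAbove (R := ℂ) a b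
    rw [pow_add, pow_add] at e1
    simp only [hF, flipE, Equiv.coe_fn_mk, Fin.removeNth_apply]
    rw [← Fin.removeNth_removeNth_eq_swap, Fin.succAbove_succAbove_predAbove, e1, hS]
    ring
  have h2 : ∑ p, F p = -∑ p, F p := by
    rw [← Finset.sum_neg_distrib, ← Equiv.sum_comp (flipE q) F]
    exact Finset.sum_congr rfl fun p _ => h1 p
  linear_combination h2 / 2

theorem wd_wd (γ : Fin N → ℂ) (x : (Fin q → Fin N) → ℂ) (c : ℂ) (J : Fin (q + 1 + 1) → Fin N) :
    wdA γ (wdA (fun j => c * γ j) x) J = 0 := by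
  rw [← symm_sum x (fun i j => c * γ i * γ j) (fun i j => by ring) J]
  unfold wdA
  refine Finset.sum_congr rfl fun a _ => ?_
  rw [Finset.mul_sum]
  exact Finset.sum_congr rfl fun b _ => by ring

theorem al1 : StmtAL1 := by
  intro N q ζ γ
  refine ⟨fun x => ⟨alt_wd γ, ib_wd ζ γ, fun hx h h0 => ?_, top_zero, alt_Alt x, Alt_eq,
    symm_sum x, wd_wd γ x⟩, fun x hx => ⟨alt_ib ζ hx, hor_ib ζ hx, alt_cons hx, hor_iff ζ hx,
    alt_front hx⟩⟩
  refine (hor_iff ζ (alt_wd γ hx)).2 fun J => ?_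
  rw [ib_wd ζ γ h, h0, zero_mul]

end Pool.Agent.MP_fcd29e_an.H56
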